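import Pool.Agent.Lib.MP_4fc6a2_gt.Main

set_option autoImplicit false

namespace Pool.Agent.Results.MP_4fc6a2_gt.NoPlasticAnalytic

/-- Every dense analytic subgroup of the real line has a non-expansive bijection onto itself
that is not an isometry. -/
theorem result (G : AddSubgroup ℝ) (hdense : Dense (G : Set ℝ))
    (hanalytic : MeasureTheory.AnalyticSet (G : Set ℝ)) :
    ∃ f : G → G, Function.Bijective f ∧
      (∀ x y : G, |(f x : ℝ) - (f y : ℝ)| ≤ |(x : ℝ) - (y : ℝ)|) ∧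
      ¬ (∀ x y : G, |(f x : ℝ) - (f y : ℝ)| = |(x : ℝ) - (y : ℝ)|) := by
  obtain ⟨f, h1, h2, x, y, h3⟩ :=
    Pool.Agent.Lib.MP_4fc6a2_gt.exists_of_analytic G hdense hanalytic
  exact ⟨f, h1, h2, fun h => h3 (h x y)⟩

end Pool.Agent.Results.MP_4fc6a2_gt.NoPlasticAnalytic
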